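import Pool.Agent.H92.BF.Targets

/-!
# CON: the relation between the two functions
-/

set_option autoImplicit false

namespace Pool.Agent.H34.BF

open Pool.Agent.H92.BF

section

variable {k K : Type} [Field k] [CharZero k] [Field K] [Algebra k K] (δ : Derivation k K K)

theorem con_tr {r : K} (hr : δ r = 1) : Transcendental k r := by
  intro h
  have hi : IsIntegral k r := h.isIntegral
  have h1 := δ.map_aeval (minpoly k r) r
  rw [minpoly.aeval, map_zero, hr, smul_eq_mul, mul_one] at h1
  have h2 : (minpoly k r).Separable := (minpoly.irreducible hi).separable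
  exact h2.aeval_derivative_ne_zero (minpoly.aeval k r) h1.symm

theorem con_ne {r : K} (hr : δ r = 1) {P : Polynomial k} (hP : P ≠ 0) :
    Polynomial.aeval r P ≠ 0 := by
  intro h
  exact hP (transcendental_iff.1 (con_tr δ hr) P h)

omit [CharZero k] in
theorem con_d {r : K} (hr : δ r = 1) (P : Polynomial k) :
    δ (Polynomial.aeval r P) = Polynomial.aeval r (Polynomial.derivative P) := by
  rw [δ.map_aeval, hr, smul_eq_mul, mul_one]

end

theorem pf_CON : T_CON := by
  intro k K _ _ _ _ δ r s Y U V A1 B1 A2 B2 N hr hconst hV hN hA1 hB1 hB2 hS hB hs hs1 hY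
  have nv := con_ne δ hr hV
  have na1 := con_ne δ hr hA1
  have nb1 := con_ne δ hr hB1
  have nb2 := con_ne δ hr hB2
  have da1 := con_d δ hr A1
  have db1 := con_d δ hr B1
  have da2 := con_d δ hr A2
  have db2 := con_d δ hr B2
  have eS := congrArg (Polynomial.aeval r) hS
  have eB := congrArg (Polynomial.aeval r) hB
  simp only [map_mul, map_sub, map_neg, map_add, map_pow, map_natCast] at eS eB
  set a1 := Polynomial.aeval r A1 with ha1
  set b1 := Polynomial.aeval r B1 with hb1
  set a2 := Polynomial.aeval r A2 with ha2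
  set b2 := Polynomial.aeval r B2 with hb2
  set v := Polynomial.aeval r V with hv
  set w := Polynomial.aeval r U with hw
  rw [← da1, ← db1] at eS
  rw [← da2, ← db2] at eB
  obtain ⟨n, rfl⟩ : ∃ n, N = n + 1 := ⟨N - 1, by omega⟩
  -- the first constant
  have hc : δ (s ^ (n + 1) * b1 / a1) = 0 := by
    set c := s ^ (n + 1) * b1 / a1 with hcdef
    have h1 : c * a1 = s ^ (n + 1) * b1 := by
      rw [hcdef]
      exact div_mul_cancel₀ _ na1
    have h2 := congrArg δ h1
    rw [δ.leibniz, δ.leibniz, δ.leibniz_pow] at h2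
    simp only [smul_eq_mul, nsmul_eq_mul, Nat.add_sub_cancel] at h2
    have h3 : δ c * (a1 * a1 * v) = 0 := by
      have h4 : δ c * (a1 * a1 * v) = (c * δ a1 + a1 * δ c) * (a1 * v) - (c * a1) * (δ a1 * v) := by
        ring
      rw [h4, h2, h1]
      have h5 : (s ^ (n + 1) * δ b1 + b1 * (((n + 1 : ℕ) : K) * (s ^ n * δ s))) * (a1 * v) -
          s ^ (n + 1) * b1 * (δ a1 * v) =
          b1 * a1 * ((n + 1 : ℕ) : K) * s ^ n * (δ s * v) -
            s ^ (n + 1) * ((δ a1 * b1 - a1 * δ b1) * v) := by ring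
      rw [h5, hs1, eS]
      ring
    rcases mul_eq_zero.1 h3 with h | h
    · exact h
    · exact absurd h (mul_ne_zero (mul_ne_zero na1 na1) nv)
  have hb0 : v * δ (a2 / b2) = w * (a2 / b2) + v := by
    set b := a2 / b2 with hbdef
    have h1 : b * b2 = a2 := by
      rw [hbdef]
      exact div_mul_cancel₀ _ nb2
    have h2 := congrArg δ h1
    rw [δ.leibniz] at h2
    simp only [smul_eq_mul] at h2
    have h3 : (v * δ b) * (b2 * b2) = (w * b + v) * (b2 * b2) := by
      have h4 : (v * δ b) * (b2 * b2) = ((b * δ b2 + b2 * δ b) * b2 - (b * b2) * δ b2) * v := by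
        ring
      rw [h4, h2, h1, eB, ← h1]
      ring
    exact mul_right_cancel₀ (mul_ne_zero nb2 nb2) h3
  have hβ : δ (Y - a2 / b2 * s) = 0 := by
    have h1 : v * δ (Y - a2 / b2 * s) = 0 := by
      rw [map_sub, δ.leibniz, hY]
      simp only [smul_eq_mul]
      have h2 : v * (s - (a2 / b2 * δ s + s * δ (a2 / b2))) =
          v * s - a2 / b2 * (δ s * v) - s * (v * δ (a2 / b2)) := by ring
      rw [h2, hb0, hs1]
      ring
    rcases mul_eq_zero.1 h1 with h | h
    · exact absurd h nv
    · exact h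
  obtain ⟨c, hc'⟩ := hconst _ hc
  obtain ⟨β, hβ'⟩ := hconst _ hβ
  refine ⟨c, β, ?_⟩
  rw [hc', hβ', map_mul, map_mul, map_pow, map_pow, ← ha1, ← hb1, ← ha2, ← hb2]
  have h1 : Y - (Y - a2 / b2 * s) = a2 / b2 * s := by ring
  rw [h1, mul_pow, div_pow]
  field_simp

end Pool.Agent.H34.BF
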