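import Pool.Agent.H92.BF.Targets
import Pool.Agent.H27.LV.Curve

/-!
# PLA: complements of the plane curves `F(x,y) = z ^ m`
-/

set_option autoImplicit false

namespace Pool.Agent.H34.BF

open MvPolynomial SC Pool.Agent.H27.LV Pool.Agent.H92.BF

section

variable {k K : Type} [Field k] [Field K] [Algebra k K]

/-- the number of the places with poles is at most the degree -/
theorem pla_card {ι : Type} [Fintype ι] (z : ι → K)
    (hfin : {v : DV k K | poleOrder v z ≠ 0}.Finite) : hfin.toFinset.card ≤ deg k z := by
  unfold deg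
  rw [finsum_eq_sum_of_support_subset (s := hfin.toFinset) _ (fun v hv => by
    rw [Function.mem_support] at hv
    simpa using hv), Finset.card_eq_sum_ones]
  refine Finset.sum_le_sum fun v hv => ?_
  have h : poleOrder v z ≠ 0 := by simpa using hv
  omega

theorem pla_int {ι : Type} [Fintype ι] (z : ι → K) (v : DV k K) (h : poleOrder v z = 0) (i : ι) :
    0 ≤ v.ord (z i) := by
  have h1 : (-(v.ord (z i))).toNat ≤ poleOrder v z :=
    Finset.le_sup (f := fun i => (-(v.ord (z i))).toNat) (Finset.mem_univ i)
  omega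

end

theorem pf_PLA (hMN : T_MN) : T_PLA := by
  classical
  intro k _ _ _ m a hm ha
  obtain ⟨B, hB⟩ := hMN k m a (by omega) ha
  refine ⟨B, ?_⟩
  intro K _ _ _ htr D hD x S hS
  have hfin := pfi k K htr (Fin 2) x
  have hcard := pla_card x hfin
  have hout : ∀ v, v ∉ S ∪ hfin.toFinset → 0 ≤ v.ord (x 0) ∧ 0 ≤ v.ord (x 1) ∧
      v.ord (aeval x (FF a) - 1) = 0 := by
    intro v hv
    rw [Finset.mem_union, not_or] at hv
    have h0 : poleOrder v x = 0 := by
      by_contra hc
      exact hv.2 (by simpa using hc)
    refine ⟨pla_int x v h0 0, pla_int x v h0 1, ?_⟩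
    rw [hS v hv.1, h0]
    simp
  rcases hB K htr D hD x (S ∪ hfin.toFinset) hout with h | h
  · left
    have h1 : ((S ∪ hfin.toFinset).card : ℤ) ≤ S.card + deg k x := by
      have h2 := Finset.card_union_le S hfin.toFinset
      have h3 : (S ∪ hfin.toFinset).card ≤ S.card + deg k x := h2.trans (by omega)
      exact_mod_cast h3
    linarith
  · exact Or.inr h

end Pool.Agent.H34.BF
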